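import Mathlib
import Pool.Agent.W809.ZQ.Stm
import Pool.Agent.W451.ZQ.DIAG

set_option autoImplicit false

/-! A bracket- and star-closed complex space of matrices normalised by a unitary matrix `g` whose
`g`-fixed elements are central is commutative. -/

open Matrix
open scoped ComplexOrder

namespace Pool.Agent.X270.Conj

open Pool.Agent.W809.ZQ

variable {n : ℕ}

theorem normal_of_comm (x : Mt n)
    (h : (x * xᴴ - xᴴ * x) * x = x * (x * xᴴ - xᴴ * x)) : x * xᴴ = xᴴ * x := by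
  set c := x * xᴴ - xᴴ * x with hc
  have hH : cᴴ = c := by
    rw [hc, conjTranspose_sub, conjTranspose_mul, conjTranspose_mul, conjTranspose_conjTranspose]
  have h1 : trace (cᴴ * c) = 0 := by
    rw [hH]
    have h2 : c * c = c * x * xᴴ - c * xᴴ * x := by
      have : c * c = c * (x * xᴴ - xᴴ * x) := by rw [← hc]
      rw [this, mul_sub, ← mul_assoc, ← mul_assoc]
    rw [h2, trace_sub, trace_mul_comm (c * xᴴ) x, ← mul_assoc, h, sub_self]
  have h3 : c = 0 := trace_conjTranspose_mul_self_eq_zero_iff.1 h1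
  exact sub_eq_zero.1 h3

/-- the bracket with `x` -/
def adx (x : Mt n) : Module.End ℂ (Mt n) := LinearMap.mulLeft ℂ x - LinearMap.mulRight ℂ x

theorem adx_apply (x y : Mt n) : adx x y = x * y - y * x := rfl

theorem adx_sq {x : Mt n} (hx : x * xᴴ = xᴴ * x) (y : Mt n) (h : adx x (adx x y) = 0) :
    adx x y = 0 := by
  set z := adx x y with hz
  have hz' : z = x * y - y * x := hz
  have hxz : x * z = z * x := by
    rw [adx_apply] at h
    exact sub_eq_zero.1 h
  set w := xᴴ * z - z * xᴴ with hw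
  have hwH : wᴴ = zᴴ * x - x * zᴴ := by
    rw [hw, conjTranspose_sub, conjTranspose_mul, conjTranspose_mul, conjTranspose_conjTranspose]
  have hw0 : w = 0 := by
    have h1 : trace (wᴴ * w) = 0 := by
      rw [hwH, hw]
      have e1 : trace (zᴴ * x * (xᴴ * z)) = trace (x * zᴴ * (xᴴ * z)) := by
        have a1 : zᴴ * x * (xᴴ * z) = zᴴ * xᴴ * (z * x) := by
          rw [← hxz]
          calc zᴴ * x * (xᴴ * z) = zᴴ * (x * xᴴ) * z := by noncomm_ring
            _ = zᴴ * (xᴴ * x) * z := by rw [hx]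
            _ = _ := by noncomm_ring
        rw [a1]
        have a2 : zᴴ * xᴴ * (z * x) = (zᴴ * (xᴴ * z)) * x := by noncomm_ring
        rw [a2, trace_mul_comm]
        congr 1
        noncomm_ring
      have e2 : trace (zᴴ * x * (z * xᴴ)) = trace (x * zᴴ * (z * xᴴ)) := by
        have a1 : zᴴ * x * (z * xᴴ) = (zᴴ * (z * xᴴ)) * x := by
          calc zᴴ * x * (z * xᴴ) = zᴴ * (x * z) * xᴴ := by noncomm_ring
            _ = zᴴ * (z * x) * xᴴ := by rw [hxz]
            _ = zᴴ * z * (x * xᴴ) := by noncomm_ring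
            _ = zᴴ * z * (xᴴ * x) := by rw [hx]
            _ = _ := by noncomm_ring
        rw [a1, trace_mul_comm]
        congr 1
        noncomm_ring
      have e3 : (zᴴ * x - x * zᴴ) * (xᴴ * z - z * xᴴ) =
          zᴴ * x * (xᴴ * z) - x * zᴴ * (xᴴ * z) - (zᴴ * x * (z * xᴴ) - x * zᴴ * (z * xᴴ)) := by
        noncomm_ring
      rw [e3, trace_sub, trace_sub, trace_sub, e1, e2]
      ring
    exact trace_conjTranspose_mul_self_eq_zero_iff.1 h1
  have h2 : trace (zᴴ * z) = 0 := by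
    have e1 : zᴴ * z = zᴴ * x * y - zᴴ * y * x := by
      have : zᴴ * z = zᴴ * (x * y - y * x) := by rw [← hz']
      rw [this, mul_sub, ← mul_assoc, ← mul_assoc]
    rw [e1, trace_sub, trace_mul_comm (zᴴ * y) x, ← trace_sub, ← mul_assoc, ← sub_mul, ← hwH, hw0]
    simp
  exact trace_conjTranspose_mul_self_eq_zero_iff.1 h2

theorem adx_pow {x : Mt n} (hx : x * xᴴ = xᴴ * x) (y : Mt n) (k : ℕ)
    (h : ((adx x) ^ (k + 1)) y = 0) : adx x y = 0 := by
  induction k with
  | zero => simpa using h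
  | succ k ih =>
    apply ih
    rw [pow_succ', pow_succ'] at h
    rw [pow_succ']
    exact adx_sq hx _ h

/-- conjugation by a unitary matrix -/
def AdL (g : U n) : Module.End ℂ (Mt n) :=
  (LinearMap.mulLeft ℂ (g : Mt n)) ∘ₗ (LinearMap.mulRight ℂ ((g⁻¹ : U n) : Mt n))

theorem AdL_apply (g : U n) (x : Mt n) : AdL g x = (g : Mt n) * x * ((g⁻¹ : U n) : Mt n) := by
  rw [mul_assoc]; rfl

theorem coe_mul_inv (g : U n) : (g : Mt n) * ((g⁻¹ : U n) : Mt n) = 1 := by
  rw [← Submonoid.coe_mul, mul_inv_cancel]; rfl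

theorem coe_inv_mul (g : U n) : ((g⁻¹ : U n) : Mt n) * (g : Mt n) = 1 := by
  rw [← Submonoid.coe_mul, inv_mul_cancel]; rfl

theorem coe_inv_eq (g : U n) : ((g⁻¹ : U n) : Mt n) = (g : Mt n)ᴴ := rfl

theorem AdL_mul (g : U n) (x y : Mt n) : AdL g (x * y) = AdL g x * AdL g y := by
  rw [AdL_apply, AdL_apply, AdL_apply]
  calc (g : Mt n) * (x * y) * ((g⁻¹ : U n) : Mt n)
      = (g : Mt n) * x * 1 * (y * ((g⁻¹ : U n) : Mt n)) := by noncomm_ring
    _ = (g : Mt n) * x * (((g⁻¹ : U n) : Mt n) * (g : Mt n)) * (y * ((g⁻¹ : U n) : Mt n)) := by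
        rw [coe_inv_mul]
    _ = _ := by noncomm_ring

theorem AdL_star (g : U n) (x : Mt n) : AdL g xᴴ = (AdL g x)ᴴ := by
  rw [AdL_apply, AdL_apply, conjTranspose_mul, conjTranspose_mul, ← coe_inv_eq g,
    coe_inv_eq g, conjTranspose_conjTranspose, mul_assoc]

theorem AdL_adx (g : U n) (x y : Mt n) : AdL g (adx x y) = adx (AdL g x) (AdL g y) := by
  rw [adx_apply, adx_apply, map_sub, AdL_mul, AdL_mul]

theorem AdL_inj (g : U n) {x : Mt n} (h : AdL g x = 0) : x = 0 := by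
  rw [AdL_apply] at h
  calc x = (((g⁻¹ : U n) : Mt n) * (g : Mt n)) * x * (((g⁻¹ : U n) : Mt n) * (g : Mt n)) := by
        rw [coe_inv_mul]; simp
    _ = ((g⁻¹ : U n) : Mt n) * ((g : Mt n) * x * ((g⁻¹ : U n) : Mt n)) * (g : Mt n) := by
        noncomm_ring
    _ = 0 := by rw [h]; simp

theorem adx_pow_eig (g : U n) {x y : Mt n} {a b : ℂ} (hx : AdL g x = a • x) (hy : AdL g y = b • y)
    (k : ℕ) : AdL g (((adx x) ^ k) y) = (a ^ k * b) • ((adx x) ^ k) y := by
  induction k with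
  | zero => simpa using hy
  | succ k ih =>
    rw [pow_succ' (adx x), Module.End.mul_apply, AdL_adx, ih, hx, adx_apply, adx_apply]
    rw [smul_mul_smul_comm, smul_mul_smul_comm, ← mul_comm a, ← smul_sub, pow_succ']
    congr 1
    ring

theorem adx_pow_mem {l : Submodule ℂ (Mt n)} (hbr : ∀ x ∈ l, ∀ y ∈ l, x * y - y * x ∈ l)
    {x y : Mt n} (hx : x ∈ l) (hy : y ∈ l) (k : ℕ) : ((adx x) ^ k) y ∈ l := by
  induction k with
  | zero => simpa using hy
  | succ k ih =>
    rw [pow_succ', Module.End.mul_apply, adx_apply]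
    exact hbr _ hx _ ih

section

variable {l : Submodule ℂ (Mt n)} (hbr : ∀ x ∈ l, ∀ y ∈ l, x * y - y * x ∈ l)
  (hst : ∀ x ∈ l, xᴴ ∈ l) {g : U n} (hfix : ∀ x ∈ l, AdL g x = x → ∀ y ∈ l, x * y = y * x)

include hbr hst hfix

theorem eig_normal {x : Mt n} (hx : x ∈ l) {a : ℂ} (ha : ‖a‖ = 1) (hxa : AdL g x = a • x) :
    x * xᴴ = xᴴ * x := by
  apply normal_of_comm
  apply hfix
  · exact hbr _ hx _ (hst _ hx)
  · have h1 : AdL g xᴴ = (starRingEnd ℂ a) • xᴴ := by
      rw [AdL_star, hxa, conjTranspose_smul]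
      rfl
    have h2 := AdL_adx g x xᴴ
    rw [adx_apply, adx_apply, hxa, h1] at h2
    rw [h2, smul_mul_smul_comm, smul_mul_smul_comm, mul_comm (starRingEnd ℂ a) a,
      Complex.mul_conj, Complex.normSq_eq_norm_sq, ha]
    simp
  · exact hx

theorem descent {ζ : ℂ} {m : ℕ} (hm : 1 ≤ m) (hζ : ζ ^ m = 1) (s : ℕ) :
    ∀ a b : ℕ, a + b ≤ s → ∀ x ∈ l, ∀ y ∈ l, AdL g x = (ζ ^ a) • x → AdL g y = (ζ ^ b) • y →
      x * y = y * x := by
  have hn : ‖ζ‖ = 1 := by
    have h1 : ‖ζ‖ ^ m = 1 := by rw [← norm_pow, hζ, norm_one]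
    exact (pow_eq_one_iff_of_nonneg (norm_nonneg _) (by omega)).1 h1
  induction s with
  | zero =>
    intro a b hab x hx y hy hxa _
    have ha : a = 0 := by omega
    rw [ha, pow_zero, one_smul] at hxa
    exact hfix x hx hxa y hy
  | succ s ih =>
    have key : ∀ a b : ℕ, a ≤ b → a + b ≤ s + 1 → ∀ x ∈ l, ∀ y ∈ l, AdL g x = (ζ ^ a) • x →
        AdL g y = (ζ ^ b) • y → x * y = y * x := by
      intro a b hab hs x hx y hy hxa hyb
      rcases Nat.eq_zero_or_pos a with h0 | h0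
      · rw [h0, pow_zero, one_smul] at hxa
        exact hfix x hx hxa y hy
      · have hxn : x * xᴴ = xᴴ * x := eig_normal hbr hst hfix hx (a := ζ ^ a)
          (by rw [norm_pow, hn, one_pow]) hxa
        have h1 := adx_pow_eig g hxa hyb (m - 1)
        have h2 : (ζ ^ a) ^ (m - 1) * ζ ^ b = ζ ^ (b - a) := by
          have h3 : ζ ^ b = ζ ^ a * ζ ^ (b - a) := by rw [← pow_add]; congr 1; omega
          rw [h3, ← mul_assoc, ← pow_succ, Nat.sub_add_cancel hm, ← pow_mul, mul_comm a m, pow_mul,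
            hζ, one_pow, one_mul]
        rw [h2] at h1
        have h4 := ih a (b - a) (by omega) x hx _ (adx_pow_mem hbr hx hy (m - 1)) hxa h1
        have h5 : ((adx x) ^ (m - 1 + 1)) y = 0 := by
          rw [pow_succ', Module.End.mul_apply, adx_apply, h4, sub_self]
        exact sub_eq_zero.1 (adx_pow hxn y (m - 1) h5)
    intro a b hab x hx y hy hxa hyb
    rcases le_total a b with h | h
    · exact key a b h hab x hx y hy hxa hyb
    · exact (key b a h (by omega) y hy x hx hyb hxa).symm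

omit hbr hst hfix in
theorem eig_norm {x : Mt n} (hx : x ≠ 0) {a : ℂ} (hxa : AdL g x = a • x) : ‖a‖ = 1 := by
  have h1 : trace ((AdL g x)ᴴ * AdL g x) = trace (xᴴ * x) := by
    rw [← AdL_star, ← AdL_mul, AdL_apply, trace_mul_comm, ← mul_assoc, coe_inv_mul, one_mul]
  rw [hxa, conjTranspose_smul, smul_mul_smul_comm, trace_smul, smul_eq_mul] at h1
  have h2 : trace (xᴴ * x) ≠ 0 := fun h => hx (trace_conjTranspose_mul_self_eq_zero_iff.1 h)
  have h3 : star a * a = 1 := by
    have := mul_right_cancel₀ h2 (h1.trans (one_mul _).symm)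
    exact this
  have h4 : ‖a‖ * ‖a‖ = 1 := by
    have := congrArg norm h3
    rwa [norm_mul, norm_star, norm_one] at this
  nlinarith [norm_nonneg a]

theorem root_of_unity {x y : Mt n} (hx : x ∈ l) (hy : y ∈ l) {a b : ℂ} (hxa : AdL g x = a • x)
    (hyb : AdL g y = b • y) (hne : x * y ≠ y * x) : ∃ p : ℕ, 1 ≤ p ∧ a ^ p = 1 := by
  have hx0 : x ≠ 0 := by rintro rfl; simp at hne
  have hy0 : y ≠ 0 := by rintro rfl; simp at hne
  have ha := eig_norm (g := g) hx0 hxa
  have hb := eig_norm (g := g) hy0 hyb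
  have ha0 : a ≠ 0 := by intro h; rw [h] at ha; simp at ha
  have hb0 : b ≠ 0 := by intro h; rw [h] at hb; simp at hb
  have hxn := eig_normal hbr hst hfix hx ha hxa
  have hev : ∀ k : ℕ, (AdL g : Module.End ℂ (Mt n)).HasEigenvalue (a ^ k * b) := by
    intro k
    refine Module.End.hasEigenvalue_of_hasEigenvector (x := ((adx x) ^ k) y) ⟨?_, ?_⟩
    · rw [Module.End.mem_eigenspace_iff]
      exact adx_pow_eig g hxa hyb k
    · intro h
      rcases Nat.eq_zero_or_pos k with h0 | h0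
      · rw [h0] at h
        exact hy0 (by simpa using h)
      · have h1 : k = (k - 1) + 1 := by omega
        rw [h1] at h
        exact hne (sub_eq_zero.1 (adx_pow hxn y _ h))
  have hfin := Module.End.finite_hasEigenvalue (AdL g : Module.End ℂ (Mt n))
  have hninj : ¬ Function.Injective (fun k : ℕ => a ^ k * b) := by
    intro hinj
    have h1 : Set.Infinite (Set.range (fun k : ℕ => a ^ k * b)) := Set.infinite_range_of_injective hinj
    exact h1 (hfin.subset (by rintro _ ⟨k, rfl⟩; exact hev k))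
  rw [Function.Injective] at hninj
  push Not at hninj
  obtain ⟨i, j, hij, hne'⟩ := hninj
  have h1 : a ^ i = a ^ j := mul_right_cancel₀ hb0 hij
  rcases lt_or_gt_of_ne hne' with h | h
  · refine ⟨j - i, by omega, ?_⟩
    have h2 : a ^ j = a ^ i * a ^ (j - i) := by rw [← pow_add]; congr 1; omega
    rw [h2] at h1
    have h3 : a ^ i ≠ 0 := pow_ne_zero _ ha0
    exact (mul_left_cancel₀ h3 ((mul_one _).trans h1)).symm
  · refine ⟨i - j, by omega, ?_⟩
    have h2 : a ^ i = a ^ j * a ^ (i - j) := by rw [← pow_add]; congr 1; omega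
    rw [h2] at h1
    have h3 : a ^ j ≠ 0 := pow_ne_zero _ ha0
    exact mul_left_cancel₀ h3 (h1.trans (mul_one _).symm)

theorem eig_comm {x y : Mt n} (hx : x ∈ l) (hy : y ∈ l) {a b : ℂ} (hxa : AdL g x = a • x)
    (hyb : AdL g y = b • y) : x * y = y * x := by
  by_contra hne
  obtain ⟨p, hp, hap⟩ := root_of_unity hbr hst hfix hx hy hxa hyb hne
  obtain ⟨q, hq, hbq⟩ := root_of_unity hbr hst hfix hy hx hyb hxa (fun h => hne h.symm)
  have hpq : p * q ≠ 0 := Nat.mul_ne_zero (by omega) (by omega)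
  have hprim := Complex.isPrimitiveRoot_exp (p * q) hpq
  set ζ := Complex.exp (2 * Real.pi * Complex.I / ((p * q : ℕ) : ℂ)) with hζdef
  have h1 : a ^ (p * q) = 1 := by rw [pow_mul, hap, one_pow]
  have h2 : b ^ (p * q) = 1 := by rw [mul_comm, pow_mul, hbq, one_pow]
  have : NeZero (p * q) := ⟨hpq⟩
  obtain ⟨i, -, hi⟩ := hprim.eq_pow_of_pow_eq_one h1
  obtain ⟨j, -, hj⟩ := hprim.eq_pow_of_pow_eq_one h2
  rw [← hi] at hxa
  rw [← hj] at hyb
  exact hne (descent hbr hst hfix (ζ := ζ) (m := p * q) (Nat.one_le_iff_ne_zero.2 hpq)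
    hprim.pow_eq_one (i + j) i j le_rfl x hx y hy hxa hyb)

end

/-- conjugation by a unitary matrix is diagonalisable -/
theorem AdL_top (g : U n) : ⨆ μ : ℂ, (AdL g : Module.End ℂ (Mt n)).genEigenspace μ (1 : ℕ) = ⊤ := by
  have hdiag : S_DIAG := Pool.Agent.W451.ZQ.diag
  obtain ⟨P, hP⟩ := hdiag n (Subgroup.zpowers g) (by
    rintro a ⟨i, rfl⟩ b ⟨j, rfl⟩
    show g ^ i * g ^ j = g ^ j * g ^ i
    rw [← _root_.zpow_add, ← _root_.zpow_add, add_comm])
  have h1 := hP g (Subgroup.mem_zpowers g)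
  have h2 := hP g⁻¹ (Subgroup.inv_mem _ (Subgroup.mem_zpowers g))
  set D : Mt n := ((P * g * P⁻¹ : U n) : Mt n) with hD
  set D' : Mt n := ((P * g⁻¹ * P⁻¹ : U n) : Mt n) with hD'
  have hDd : D = diagonal (fun i => D i i) := by
    ext i j
    by_cases h : i = j
    · subst h; simp
    · rw [h1 i j h, diagonal_apply_ne _ h]
  have hDd' : D' = diagonal (fun i => D' i i) := by
    ext i j
    by_cases h : i = j
    · subst h; simp
    · rw [h2 i j h, diagonal_apply_ne _ h]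
  rw [eq_top_iff]
  intro X _
  -- decompose
  have hX : X = ∑ i, ∑ j, ((P⁻¹ : U n) : Mt n) * (Matrix.single i j (((P : Mt n) * X * ((P⁻¹ : U n) : Mt n)) i j))
      * (P : Mt n) := by
    have e1 : ((P : Mt n) * X * ((P⁻¹ : U n) : Mt n)) =
        ∑ i, ∑ j, Matrix.single i j (((P : Mt n) * X * ((P⁻¹ : U n) : Mt n)) i j) :=
      matrix_eq_sum_single _
    have e2 : X = ((P⁻¹ : U n) : Mt n) * ((P : Mt n) * X * ((P⁻¹ : U n) : Mt n)) * (P : Mt n) := by
      calc X = (((P⁻¹ : U n) : Mt n) * (P : Mt n)) * X * (((P⁻¹ : U n) : Mt n) * (P : Mt n)) := by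
            rw [coe_inv_mul]; simp
        _ = _ := by noncomm_ring
    conv_lhs => rw [e2, e1]
    rw [Finset.mul_sum, Finset.sum_mul]
    refine Finset.sum_congr rfl fun i _ => ?_
    rw [Finset.mul_sum, Finset.sum_mul]
  rw [hX]
  refine Submodule.sum_mem _ fun i _ => Submodule.sum_mem _ fun j _ => ?_
  refine Submodule.mem_iSup_of_mem (D i i * D' j j) ?_
  set c : ℂ := (((P : Mt n) * X * ((P⁻¹ : U n) : Mt n)) i j)
  rw [Nat.cast_one]
  show _ ∈ (AdL g : Module.End ℂ (Mt n)).eigenspace _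
  rw [Module.End.mem_eigenspace_iff, AdL_apply]
  have e3 : (g : Mt n) * ((P⁻¹ : U n) : Mt n) = ((P⁻¹ : U n) : Mt n) * D := by
    rw [hD, ← Submonoid.coe_mul, ← Submonoid.coe_mul]
    congr 1
    group
  have e4 : (P : Mt n) * ((g⁻¹ : U n) : Mt n) = D' * (P : Mt n) := by
    rw [hD', ← Submonoid.coe_mul, ← Submonoid.coe_mul]
    congr 1
    group
  have e5 : D * Matrix.single i j c * D' = (D i i * D' j j) • Matrix.single i j c := by
    rw [hDd, hDd']
    ext k r
    rw [mul_diagonal, diagonal_mul, Matrix.smul_apply, Matrix.single_apply]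
    by_cases h : i = k ∧ j = r
    · obtain ⟨rfl, rfl⟩ := h
      simp only [and_self, if_true, diagonal_apply_eq, smul_eq_mul]
      ring
    · rw [if_neg h]; simp
  calc (g : Mt n) * (((P⁻¹ : U n) : Mt n) * Matrix.single i j c * (P : Mt n)) * ((g⁻¹ : U n) : Mt n)
      = ((g : Mt n) * ((P⁻¹ : U n) : Mt n)) * Matrix.single i j c *
        ((P : Mt n) * ((g⁻¹ : U n) : Mt n)) := by noncomm_ring
    _ = ((P⁻¹ : U n) : Mt n) * (D * Matrix.single i j c * D') * (P : Mt n) := by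
        rw [e3, e4]; noncomm_ring
    _ = _ := by rw [e5, mul_smul_comm, smul_mul_assoc]

theorem comm_of_fix {l : Submodule ℂ (Mt n)} (hbr : ∀ x ∈ l, ∀ y ∈ l, x * y - y * x ∈ l)
    (hst : ∀ x ∈ l, xᴴ ∈ l) {g : U n} (hg : ∀ x ∈ l, AdL g x ∈ l)
    (hfix : ∀ x ∈ l, AdL g x = x → ∀ y ∈ l, x * y = y * x) :
    ∀ x ∈ l, ∀ y ∈ l, x * y = y * x := by
  have h1 := Submodule.eq_iSup_inf_genEigenspace (f := (AdL g : Module.End ℂ (Mt n))) (p := l)
    ((1 : ℕ) : ℕ∞) hg (AdL_top g)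
  have key : ∀ x ∈ l, ∀ a : ℂ, AdL g x = a • x → ∀ y ∈ l, x * y = y * x := by
    intro x hx a hxa y hy
    rw [h1] at hy
    refine Submodule.iSup_induction _ (motive := fun y => x * y = y * x) hy ?_ ?_ ?_
    · rintro b y ⟨hyl, hyb⟩
      rw [Nat.cast_one] at hyb
      have hyb' : y ∈ (AdL g : Module.End ℂ (Mt n)).eigenspace b := hyb
      rw [Module.End.mem_eigenspace_iff] at hyb'
      exact eig_comm hbr hst hfix hx hyl hxa hyb'
    · simp
    · intro y z h2 h3
      rw [mul_add, add_mul, h2, h3]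
  intro x hx y hy
  have hx' := hx
  rw [h1] at hx'
  refine Submodule.iSup_induction _ (motive := fun x => x * y = y * x) hx' ?_ ?_ ?_
  · rintro b x ⟨hxl, hxb⟩
    rw [Nat.cast_one] at hxb
    have hxb' : x ∈ (AdL g : Module.End ℂ (Mt n)).eigenspace b := hxb
    rw [Module.End.mem_eigenspace_iff] at hxb'
    exact key x hxl b hxb' y hy
  · simp
  · intro x z h2 h3
    rw [mul_add, add_mul, h2, h3]

end Pool.Agent.X270.Conj
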