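import Mathlib
import Pool.Agent.X270.Conj.Comm
import Pool.Agent.W577.ZQ.Add
import Pool.Agent.W382.ZQ.Trv
import Pool.Agent.W29.ZQ.Lc
import Pool.Agent.W748.ZQ.Split

set_option autoImplicit false

/-! Maximal abelian subalgebras in closed subgroups of the unitary group. -/

open Matrix Filter Topology

namespace Pool.Agent.X270.Conj

open Pool.Agent.W809.ZQ Pool.Agent.W748.ZQ

variable {n : ℕ}

theorem hADD : S_ADD := Pool.Agent.W577.ZQ.add

theorem AdL_one (X : Mt n) : AdL (1 : U n) X = X := by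
  rw [AdL_apply]; simp

theorem AdL_comp (g h : U n) (X : Mt n) : AdL (g * h) X = AdL g (AdL h X) := by
  rw [AdL_apply, AdL_apply, AdL_apply, _root_.mul_inv_rev, Submonoid.coe_mul, Submonoid.coe_mul]
  noncomm_ring

theorem AdL_inv_self (g : U n) (X : Mt n) : AdL g⁻¹ (AdL g X) = X := by
  rw [← AdL_comp, inv_mul_cancel, AdL_one]

theorem AdL_self_inv (g : U n) (X : Mt n) : AdL g (AdL g⁻¹ X) = X := by
  rw [← AdL_comp, mul_inv_cancel, AdL_one]

theorem AdL_mem {L : Subgroup (U n)} {g : U n} (hg : g ∈ L) {X : Mt n} (hX : X ∈ LL L) :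
    AdL g X ∈ LL L := by
  rw [AdL_apply]; exact LL_conj hX hg

theorem AdL_comm {g : U n} {X Y : Mt n} (h : X * Y = Y * X) :
    AdL g X * AdL g Y = AdL g Y * AdL g X := by
  rw [← AdL_mul, ← AdL_mul, h]

theorem LL_br {L : Subgroup (U n)} (hL : IsClosed (L : Set (U n))) {X Y : Mt n} (hX : X ∈ LL L)
    (hY : Y ∈ LL L) : X * Y - Y * X ∈ LL L := by
  have : X * Y - Y * X ∈ LS hADD L hL :=
    bracket_mem (N := L) (m := LS hADD L hL) (fun g hg X hX => LL_conj hX hg) hX hY
  exact this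

/-- self-centralising abelian subspaces of the Lie algebra -/
structure IsCar (L : Subgroup (U n)) (t : Submodule ℝ (Mt n)) : Prop where
  le : ∀ X ∈ t, X ∈ LL L
  comm : ∀ X ∈ t, ∀ Y ∈ t, X * Y = Y * X
  max : ∀ X ∈ LL L, (∀ Y ∈ t, X * Y = Y * X) → X ∈ t

theorem exists_stable {L : Subgroup (U n)} (hL : IsClosed (L : Set (U n))) {g : U n} (hg : g ∈ L) :
    ∃ t : Submodule ℝ (Mt n), IsCar L t ∧ (∀ X ∈ t, AdL g X ∈ t) ∧ (∀ X ∈ t, AdL g⁻¹ X ∈ t) := by
  classical
  let S : Set (Submodule ℝ (Mt n)) := {a | (∀ X ∈ a, X ∈ LL L) ∧ (∀ X ∈ a, AdL g X = X) ∧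
    ∀ X ∈ a, ∀ Y ∈ a, X * Y = Y * X}
  have hS : S.Nonempty := by
    refine ⟨⊥, ?_, ?_, ?_⟩
    · intro X hX
      rw [Submodule.mem_bot] at hX
      rw [hX]; exact LL_zero L
    · intro X hX
      rw [Submodule.mem_bot] at hX
      rw [hX, map_zero]
    · intro X hX Y hY
      rw [Submodule.mem_bot] at hX
      rw [hX, zero_mul, mul_zero]
  obtain ⟨a, ⟨haL, hag, hac⟩, hmax⟩ :=
    (wellFounded_gt : WellFounded ((· > ·) : Submodule ℝ (Mt n) → _ → Prop)).has_min S hS
  -- the centraliser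
  let z : Submodule ℝ (Mt n) :=
    { carrier := {X | X ∈ LL L ∧ ∀ A ∈ a, X * A = A * X}
      zero_mem' := ⟨LL_zero L, fun A _ => by rw [zero_mul, mul_zero]⟩
      add_mem' := by
        rintro X Y ⟨hX, hXa⟩ ⟨hY, hYa⟩
        exact ⟨hADD n L hL X hX Y hY, fun A hA => by rw [add_mul, mul_add, hXa A hA, hYa A hA]⟩
      smul_mem' := by
        rintro s X ⟨hX, hXa⟩
        exact ⟨LL_smul hX s, fun A hA => by rw [smul_mul_assoc, mul_smul_comm, hXa A hA]⟩ }
  have hz : ∀ X, X ∈ z ↔ X ∈ LL L ∧ ∀ A ∈ a, X * A = A * X := fun X => Iff.rfl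
  have hza : ∀ X ∈ z, AdL g X = X → X ∈ a := by
    intro X hX hgX
    have hb : a ⊔ Submodule.span ℝ {X} ∈ S := by
      have key : ∀ Z ∈ a ⊔ Submodule.span ℝ {X}, ∃ A ∈ a, ∃ s : ℝ, Z = A + s • X := by
        intro Z hZ
        obtain ⟨A, hA, B, hB, rfl⟩ := Submodule.mem_sup.1 hZ
        obtain ⟨s, rfl⟩ := Submodule.mem_span_singleton.1 hB
        exact ⟨A, hA, s, rfl⟩
      refine ⟨?_, ?_, ?_⟩
      · intro Z hZ
        obtain ⟨A, hA, s, rfl⟩ := key Z hZ
        exact hADD n L hL A (haL A hA) _ (LL_smul hX.1 s)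
      · intro Z hZ
        obtain ⟨A, hA, s, rfl⟩ := key Z hZ
        rw [map_add, hag A hA]
        have : AdL g (s • X) = s • AdL g X := by
          have h1 : s • X = (s : ℂ) • X := by ext; simp
          have h2 : s • AdL g X = (s : ℂ) • AdL g X := by ext; simp
          rw [h1, h2, map_smul]
        rw [this, hgX]
      · intro Z hZ Z' hZ'
        obtain ⟨A, hA, s, rfl⟩ := key Z hZ
        obtain ⟨A', hA', s', rfl⟩ := key Z' hZ'
        have c1 : Commute A A' := hac A hA A' hA'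
        have c2 : Commute X A := hX.2 A hA
        have c3 : Commute X A' := hX.2 A' hA'
        have c4 : Commute X X := Commute.refl X
        exact ((c1.add_right (c2.symm.smul_right s')).add_left
          ((c3.add_right (c4.smul_right s')).smul_left s))
    have h1 := hmax _ hb
    have h2 : a = a ⊔ Submodule.span ℝ {X} := by
      by_contra hne
      exact h1 (lt_of_le_of_ne le_sup_left hne)
    rw [h2]
    exact Submodule.mem_sup_right (Submodule.mem_span_singleton_self X)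
  have hzbr : ∀ X ∈ z, ∀ Y ∈ z, X * Y - Y * X ∈ z := by
    intro X hX Y hY
    refine ⟨LL_br hL hX.1 hY.1, fun A hA => ?_⟩
    have c1 : Commute X A := hX.2 A hA
    have c2 : Commute Y A := hY.2 A hA
    exact (c1.mul_left c2).sub_left (c2.mul_left c1)
  have hzg : ∀ h : U n, h ∈ L → (∀ A ∈ a, AdL h A = A) → ∀ X ∈ z, AdL h X ∈ z := by
    intro h hh hha X hX
    refine ⟨AdL_mem hh hX.1, fun A hA => ?_⟩
    have := AdL_comm (g := h) (hX.2 A hA)
    rwa [hha A hA] at this
  have hag' : ∀ A ∈ a, AdL g⁻¹ A = A := by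
    intro A hA
    conv_lhs => rw [← hag A hA]
    exact AdL_inv_self g A
  have hrI : ∀ (s : ℝ) (X : Mt n), s • X = (s : ℂ) • X := fun s X => by ext; simp
  -- the complexification
  let l : Submodule ℂ (Mt n) :=
    { carrier := {Z | ∃ X ∈ z, ∃ Y ∈ z, Z = X + Complex.I • Y}
      zero_mem' := ⟨0, z.zero_mem, 0, z.zero_mem, by simp⟩
      add_mem' := by
        rintro _ _ ⟨X, hX, Y, hY, rfl⟩ ⟨X', hX', Y', hY', rfl⟩
        exact ⟨X + X', z.add_mem hX hX', Y + Y', z.add_mem hY hY', by rw [smul_add]; abel⟩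
      smul_mem' := by
        rintro c _ ⟨X, hX, Y, hY, rfl⟩
        refine ⟨c.re • X - c.im • Y, z.sub_mem (z.smul_mem _ hX) (z.smul_mem _ hY),
          c.im • X + c.re • Y, z.add_mem (z.smul_mem _ hX) (z.smul_mem _ hY), ?_⟩
        have hc : c = (c.re : ℂ) + (c.im : ℂ) * Complex.I := (Complex.re_add_im c).symm
        ext i j
        simp only [hrI, Matrix.add_apply, Matrix.sub_apply, Matrix.smul_apply, smul_eq_mul]
        conv_lhs => rw [hc]
        linear_combination (c.im : ℂ) * Y i j * Complex.I_sq }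
  have hl : ∀ Z, Z ∈ l ↔ ∃ X ∈ z, ∃ Y ∈ z, Z = X + Complex.I • Y := fun Z => Iff.rfl
  have hlz : ∀ X ∈ z, X ∈ l := fun X hX => ⟨X, hX, 0, z.zero_mem, by simp⟩
  have hcomm := comm_of_fix (l := l) (g := g) (by
      rintro _ ⟨X, hX, Y, hY, rfl⟩ _ ⟨X', hX', Y', hY', rfl⟩
      refine ⟨(X * X' - X' * X) - (Y * Y' - Y' * Y), z.sub_mem (hzbr _ hX _ hX') (hzbr _ hY _ hY'),
        (X * Y' - Y' * X) + (Y * X' - X' * Y), z.add_mem (hzbr _ hX _ hY') (hzbr _ hY _ hX'), ?_⟩
      simp only [mul_add, add_mul, smul_mul_assoc, mul_smul_comm, smul_smul, Complex.I_mul_I,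
        smul_add, smul_sub, neg_smul, one_smul]
      abel) (by
      rintro _ ⟨X, hX, Y, hY, rfl⟩
      refine ⟨-X, z.neg_mem hX, Y, hY, ?_⟩
      have e1 : Xᴴ = -X := skew hX.1
      have e2 : Yᴴ = -Y := skew hY.1
      rw [conjTranspose_add, conjTranspose_smul, e1, e2]
      simp) (by
      rintro _ ⟨X, hX, Y, hY, rfl⟩
      exact ⟨AdL g X, hzg g hg hag X hX, AdL g Y, hzg g hg hag Y hY, by rw [map_add, map_smul]⟩) (by
      rintro _ ⟨X, hX, Y, hY, rfl⟩ hfix
      rw [map_add, map_smul] at hfix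
      have hX' := AdL_mem hg hX.1
      have hY' := AdL_mem hg hY.1
      set X' := AdL g X
      set Y' := AdL g Y
      have e1 : X' - X = Complex.I • (Y - Y') := by
        rw [smul_sub, sub_eq_sub_iff_add_eq_add, hfix, add_comm]
      have e2 : (X' - X)ᴴ = (Complex.I • (Y - Y'))ᴴ := by rw [e1]
      have s1 : Xᴴ = -X := skew hX.1
      have s2 : Yᴴ = -Y := skew hY.1
      have s3 : X'ᴴ = -X' := skew hX'
      have s4 : Y'ᴴ = -Y' := skew hY'
      rw [conjTranspose_sub, conjTranspose_smul, conjTranspose_sub, s1, s2, s3, s4] at e2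
      have e3 : X' - X = -(X' - X) := by
        calc X' - X = Complex.I • (Y - Y') := e1
          _ = star Complex.I • (-Y - -Y') := by
              simp only [Complex.star_def, Complex.conj_I, neg_smul, smul_sub, smul_neg]
              abel
          _ = -X' - -X := e2.symm
          _ = _ := by abel
      have e4 : X' - X = 0 := by
        ext i j
        exact self_eq_neg.1 (congrFun (congrFun e3 i) j)
      have e5 : Y - Y' = 0 := by
        rw [e4] at e1
        have := e1.symm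
        rwa [smul_eq_zero_iff_right Complex.I_ne_zero] at this
      have hXa : X ∈ a := hza X hX (sub_eq_zero.1 e4)
      have hYa : Y ∈ a := hza Y hY (sub_eq_zero.1 e5).symm
      rintro _ ⟨W, hW, V, hV, rfl⟩
      have c1 : Commute X W := (hW.2 X hXa).symm
      have c2 : Commute Y W := (hW.2 Y hYa).symm
      have c3 : Commute X V := (hV.2 X hXa).symm
      have c4 : Commute Y V := (hV.2 Y hYa).symm
      exact (c1.add_right (c3.smul_right _)).add_left ((c2.add_right (c4.smul_right _)).smul_left _))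
  refine ⟨z, ⟨fun X hX => hX.1, fun X hX Y hY => hcomm X (hlz X hX) Y (hlz Y hY), ?_⟩,
    hzg g hg hag, hzg g⁻¹ (L.inv_mem hg) hag'⟩
  intro X hX hXz
  exact ⟨hX, fun A hA => hXz A ⟨haL A hA, fun B hB => hac A hA B hB⟩⟩


/-! ### Conjugacy -/

section

attribute [local instance] Matrix.linftyOpNormedRing Matrix.linftyOpNormedAlgebra

theorem exp_sub_tendsto (X : Mt n) :
    Tendsto (fun t : ℝ => t⁻¹ • (NormedSpace.exp (t • X) - 1)) (𝓝[≠] 0) (𝓝 X) := by
  have h2 := (deriv_exp X).tendsto_slope_zero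
  simp only [zero_add, zero_smul, NormedSpace.exp_zero] at h2
  exact h2

end

theorem exists_dia (L : Subgroup (U n)) (t : Submodule ℝ (Mt n)) (hle : ∀ X ∈ t, X ∈ LL L)
    (hc : ∀ X ∈ t, ∀ Y ∈ t, X * Y = Y * X) :
    ∃ P : U n, ∀ X ∈ t, ∀ i j : Fin n, i ≠ j → (AdL P X) i j = 0 := by
  let A : Subgroup (U n) :=
    { carrier := {u | ∃ X ∈ t, (u : Mt n) = NormedSpace.exp X}
      one_mem' := ⟨0, t.zero_mem, by rw [NormedSpace.exp_zero]; rfl⟩
      mul_mem' := by
        rintro u v ⟨X, hX, hu⟩ ⟨Y, hY, hv⟩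
        refine ⟨X + Y, t.add_mem hX hY, ?_⟩
        rw [Submonoid.coe_mul, hu, hv]
        exact (Matrix.exp_add_of_commute X Y (hc X hX Y hY)).symm
      inv_mem' := by
        rintro u ⟨X, hX, hu⟩
        refine ⟨-X, t.neg_mem hX, ?_⟩
        have h1 := exp_neg_eq (X := X) 1 u (by rw [one_smul]; exact hu)
        rw [h1]
        simp }
  have hdiag : S_DIAG := Pool.Agent.W451.ZQ.diag
  obtain ⟨P, hP⟩ := hdiag n A (by
    rintro u ⟨X, hX, hu⟩ v ⟨Y, hY, hv⟩
    apply Subtype.ext
    rw [Submonoid.coe_mul, Submonoid.coe_mul, hu, hv, ← Matrix.exp_add_of_commute X Y (hc X hX Y hY),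
      ← Matrix.exp_add_of_commute Y X (hc Y hY X hX), add_comm])
  refine ⟨P, fun X hX i j hij => ?_⟩
  have h1 := exp_sub_tendsto X
  have hcont : Continuous (fun M : Mt n => (AdL P M) i j) := by
    simp only [AdL_apply]
    fun_prop
  have h2 := (hcont.tendsto X).comp h1
  refine tendsto_nhds_unique h2 ?_
  have h3 : ((fun M : Mt n => (AdL P M) i j) ∘
      (fun t : ℝ => t⁻¹ • (NormedSpace.exp (t • X) - 1))) = fun _ => (0 : ℂ) := by
    funext s
    simp only [Function.comp]
    obtain ⟨u, hu, he⟩ := hle X hX s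
    have hrI : ∀ (s : ℝ) (X : Mt n), s • X = (s : ℂ) • X := fun s X => by ext; simp
    rw [hrI, map_smul, map_sub, ← he, AdL_apply, AdL_apply]
    have h4 := hP u ⟨s • X, t.smul_mem s hX, he⟩ i j hij
    rw [Submonoid.coe_mul, Submonoid.coe_mul] at h4
    rw [mul_one, coe_mul_inv, Matrix.smul_apply, Matrix.sub_apply, h4, one_apply_ne hij, sub_self,
      smul_zero]
  rw [h3]
  exact tendsto_const_nhds

theorem exists_regular (L : Subgroup (U n)) (t : Submodule ℝ (Mt n)) (ht : IsCar L t) :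
    ∃ A ∈ t, ∀ Z : Mt n, A * Z = Z * A → ∀ X ∈ t, X * Z = Z * X := by
  classical
  obtain ⟨P, hP⟩ := exists_dia L t ht.le ht.comm
  let φ : Fin n × Fin n → (t →ₗ[ℝ] ℂ) := fun q =>
    { toFun := fun X => (AdL P (X : Mt n)) q.1 q.1 - (AdL P (X : Mt n)) q.2 q.2
      map_add' := fun X Y => by
        simp only [Submodule.coe_add, map_add, Matrix.add_apply]; ring
      map_smul' := fun s X => by
        have hrI : ∀ (s : ℝ) (X : Mt n), s • X = (s : ℂ) • X := fun s X => by ext; simp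
        simp only [Submodule.coe_smul, hrI, map_smul, Matrix.smul_apply, smul_eq_mul, RingHom.id_apply,
          Complex.real_smul]
        ring }
  let I := {q : Fin n × Fin n // φ q ≠ 0}
  obtain ⟨A, hA⟩ := Submodule.exists_forall_notMem_of_forall_ne_top (K := ℝ) (M := t)
    (fun q : I => LinearMap.ker (φ q.1)) (fun q h => q.2 (LinearMap.ker_eq_top.1 h))
  refine ⟨A, A.2, fun Z hZ X hX => ?_⟩
  have hdz : ∀ X ∈ t, ∀ W : Mt n, ∀ i j, (AdL P X * W) i j = (AdL P X) i i * W i j := by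
    intro X hX W i j
    rw [mul_apply, Finset.sum_eq_single i]
    · intro k _ hk
      rw [hP X hX i k (Ne.symm hk), zero_mul]
    · intro h; exact absurd (Finset.mem_univ _) h
  have hdz' : ∀ X ∈ t, ∀ W : Mt n, ∀ i j, (W * AdL P X) i j = W i j * (AdL P X) j j := by
    intro X hX W i j
    rw [mul_apply, Finset.sum_eq_single j]
    · intro k _ hk
      rw [hP X hX k j hk, mul_zero]
    · intro h; exact absurd (Finset.mem_univ _) h
  have h1 : AdL P A.1 * AdL P Z = AdL P Z * AdL P A.1 := AdL_comm hZ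
  have h2 : AdL P X * AdL P Z = AdL P Z * AdL P X := by
    ext i j
    rw [hdz X hX, hdz' X hX]
    have h3 := congrFun (congrFun h1 i) j
    rw [hdz A.1 A.2, hdz' A.1 A.2] at h3
    by_cases hφ : φ (i, j) = 0
    · have h4 : φ (i, j) ⟨X, hX⟩ = 0 := by rw [hφ]; rfl
      have h5 : (AdL P X) i i - (AdL P X) j j = 0 := h4
      rw [sub_eq_zero.1 h5, mul_comm]
    · have h4 := hA ⟨(i, j), hφ⟩
      have h5 : (AdL P A.1) i i - (AdL P A.1) j j ≠ 0 := h4
      have h6 : ((AdL P A.1) i i - (AdL P A.1) j j) * (AdL P Z) i j = 0 := by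
        rw [sub_mul, h3]; ring
      have h7 : (AdL P Z) i j = 0 := (mul_eq_zero.1 h6).resolve_left h5
      rw [h7]; ring
  have h3 := AdL_comm (g := P⁻¹) h2
  simpa only [AdL_inv_self] using h3

theorem crit {L : Subgroup (U n)} (hL : IsClosed (L : Set (U n))) {A B : Mt n} (hA : A ∈ LL L)
    (hB : B ∈ LL L) : ∃ h ∈ L, AdL h A * B = B * AdL h A := by
  have hcont : Continuous (fun h : U n => Bf n (AdL h A) B) := by
    simp only [AdL_apply, Bf_apply]
    have h1 : Continuous (fun h : U n => (h : Mt n)) := continuous_subtype_val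
    have h2 : Continuous (fun h : U n => ((h⁻¹ : U n) : Mt n)) := h1.comp continuous_inv
    exact Complex.continuous_re.comp (((h1.mul continuous_const).mul h2).mul continuous_const).matrix_trace
  obtain ⟨h, hh, hmax⟩ := hL.isCompact.exists_isMaxOn ⟨1, L.one_mem⟩ hcont.continuousOn
  refine ⟨h, hh, ?_⟩
  set A' := AdL h A with hA'
  have hA'L : A' ∈ LL L := AdL_mem hh hA
  have key : ∀ X ∈ LL L, Bf n (X * A' - A' * X) B = 0 := by
    intro X hX
    let F : ℝ → ℝ := fun s => Bf n (NormedSpace.exp (s • X) * A' * NormedSpace.exp ((-s) • X)) B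
    have hF0 : F 0 = Bf n A' B := by simp [F]
    have hder : HasDerivAt F (Bf n (X * A' - A' * X) B) 0 := by
      rw [hasDerivAt_iff_tendsto_slope_zero]
      have h1 := lim_bracket X A'
      have hc2 : Continuous (fun M : Mt n => Bf n M B) := by
        simp only [Bf_apply]
        exact Complex.continuous_re.comp (continuous_id.mul continuous_const).matrix_trace
      have h2 := (hc2.tendsto _).comp h1
      refine h2.congr fun s => ?_
      simp only [Function.comp]
      rw [hF0, zero_add]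
      show (Bf n (s⁻¹ • (NormedSpace.exp (s • X) * A' * NormedSpace.exp ((-s) • X) - A'))) B = _
      rw [map_smul, map_sub, LinearMap.smul_apply, LinearMap.sub_apply]
    have hmaxF : IsLocalMax F 0 := by
      refine Filter.Eventually.of_forall fun s => ?_
      rw [hF0]
      obtain ⟨u, hu, he⟩ := hX s
      have h1 := hmax (L.mul_mem hu hh)
      simp only [Set.mem_ofPred_eq] at h1
      rw [AdL_comp, ← hA', AdL_apply, he, exp_neg_eq s u he] at h1
      exact h1
    exact hmaxF.hasDerivAt_eq_zero hder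
  have hW := LL_br hL hA'L hB
  have h1 := key _ hW
  set W := A' * B - B * A' with hWdef
  have h2 : Bf n W W = 0 := by
    rw [Bf_apply, skew hB] at h1
    rw [Bf_apply, skew hW]
    have e1 : trace ((W * A' - A' * W) * -B) = trace (W * -W) := by
      have e2 : trace (A' * W * B) = trace (W * B * A') := by
        rw [mul_assoc, trace_mul_comm]
      have e3 : W * -W = -(W * A' * B - W * B * A') := by
        have : W * -W = W * -(A' * B - B * A') := by rw [← hWdef]
        rw [this]; noncomm_ring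
      rw [e3, mul_neg, sub_mul, trace_neg, trace_neg, trace_sub, trace_sub, e2]
    rw [← e1]
    exact h1
  exact sub_eq_zero.1 (Bf_pos h2)

theorem car_conj {L : Subgroup (U n)} (hL : IsClosed (L : Set (U n))) {t t' : Submodule ℝ (Mt n)}
    (ht : IsCar L t) (ht' : IsCar L t') :
    ∃ h ∈ L, (∀ X ∈ t, AdL h X ∈ t') ∧ (∀ Y ∈ t', AdL h⁻¹ Y ∈ t) := by
  obtain ⟨A, hA, hAr⟩ := exists_regular L t ht
  obtain ⟨B, hB, hBr⟩ := exists_regular L t' ht'
  obtain ⟨h, hh, hc⟩ := crit hL (ht.le A hA) (ht'.le B hB)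
  have hA' : AdL h A ∈ t' := ht'.max _ (AdL_mem hh (ht.le A hA))
    (fun Y hY => (hBr (AdL h A) hc.symm Y hY).symm)
  have h1 : ∀ Y ∈ t', AdL h⁻¹ Y ∈ t := by
    intro Y hY
    refine ht.max _ (AdL_mem (L.inv_mem hh) (ht'.le Y hY)) (fun X hX => ?_)
    have h2 := AdL_comm (g := h⁻¹) (ht'.comm _ hA' Y hY)
    rw [AdL_inv_self] at h2
    exact (hAr _ h2 X hX).symm
  refine ⟨h, hh, fun X hX => ?_, h1⟩
  refine ht'.max _ (AdL_mem hh (ht.le X hX)) (fun Y hY => ?_)
  have h2 := AdL_comm (g := h) (ht.comm X hX _ (h1 Y hY))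
  rwa [AdL_self_inv] at h2

/-- a closed subgroup of the unitary group with noncommutative Lie algebra has a proper closed
subgroup which meets all conjugacy classes -/
theorem exists_sub {L : Subgroup (U n)} (hL : IsClosed (L : Set (U n)))
    (hna : ∃ X ∈ LL L, ∃ Y ∈ LL L, X * Y ≠ Y * X) :
    ∃ H : Subgroup (U n), IsClosed (H : Set (U n)) ∧ ¬ L ≤ H ∧
      ∀ g ∈ L, ∃ h ∈ L, h * g * h⁻¹ ∈ H := by
  obtain ⟨t, ht, -, -⟩ := exists_stable hL L.one_mem
  let H : Subgroup (U n) :=
    { carrier := {h | (∀ X ∈ t, AdL h X ∈ t) ∧ (∀ X ∈ t, AdL h⁻¹ X ∈ t)}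
      one_mem' := ⟨fun X hX => by rwa [AdL_one], fun X hX => by rwa [inv_one, AdL_one]⟩
      mul_mem' := by
        rintro g h ⟨hg, hg'⟩ ⟨hh, hh'⟩
        refine ⟨fun X hX => ?_, fun X hX => ?_⟩
        · rw [AdL_comp]; exact hg _ (hh X hX)
        · rw [_root_.mul_inv_rev, AdL_comp]; exact hh' _ (hg' X hX)
      inv_mem' := by
        rintro g ⟨hg, hg'⟩
        exact ⟨hg', fun X hX => by rw [inv_inv]; exact hg X hX⟩ }
  have htc : IsClosed (t : Set (Mt n)) := t.closed_of_finiteDimensional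
  have h1 : Continuous (fun h : U n => (h : Mt n)) := continuous_subtype_val
  have h2 : Continuous (fun h : U n => ((h⁻¹ : U n) : Mt n)) := h1.comp continuous_inv
  refine ⟨H, ?_, ?_, ?_⟩
  · have e : (H : Set (U n)) = (⋂ X : t, {h : U n | AdL h X ∈ t}) ∩ ⋂ X : t, {h : U n | AdL h⁻¹ X ∈ t} := by
      ext h
      simp only [Set.mem_inter_iff, Set.mem_iInter, Set.mem_ofPred_eq]
      constructor
      · rintro ⟨ha, hb⟩
        exact ⟨fun X => ha X X.2, fun X => hb X X.2⟩
      · rintro ⟨ha, hb⟩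
        exact ⟨fun X hX => ha ⟨X, hX⟩, fun X hX => hb ⟨X, hX⟩⟩
    rw [e]
    refine (isClosed_iInter fun X => ?_).inter (isClosed_iInter fun X => ?_)
    · refine htc.preimage (f := fun h : U n => AdL h X.1) ?_
      simp only [AdL_apply]
      exact (h1.mul continuous_const).mul h2
    · refine htc.preimage (f := fun h : U n => AdL h⁻¹ X.1) ?_
      simp only [AdL_apply, inv_inv]
      exact (h2.mul continuous_const).mul h1
  · intro hle
    have hspl : S_SPLIT := Pool.Agent.W748.ZQ.split hADD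
    have hall : ∀ Z ∈ LL L, Z ∈ t := by
      intro Z hZ
      obtain ⟨Y, hY, W, hW, rfl, hWc⟩ := hspl n L hL t ht.le
        (fun g hg X hX => by
          have := (hle hg).1 X hX
          rwa [AdL_apply] at this) Z hZ
      exact t.add_mem hY (ht.max W hW fun X hX => (hWc X hX).symm)
    obtain ⟨X, hX, Y, hY, hne⟩ := hna
    exact hne (ht.comm X (hall X hX) Y (hall Y hY))
  · intro g hg
    obtain ⟨s, hs, hsg, hsg'⟩ := exists_stable hL hg
    obtain ⟨h, hh, h3, h4⟩ := car_conj hL hs ht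
    refine ⟨h, hh, fun X hX => ?_, fun X hX => ?_⟩
    · rw [AdL_comp, AdL_comp]
      exact h3 _ (hsg _ (h4 X hX))
    · rw [_root_.mul_inv_rev, _root_.mul_inv_rev, inv_inv, AdL_comp, AdL_comp]
      exact h3 _ (hsg' _ (h4 X hX))

end Pool.Agent.X270.Conj
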